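import Pool.Agent.FS84.FinalJ
import Pool.Agent.TAU.Has

/-!
`MP_d45256_al`: flexible permutation stability is invariant under commensurability up to finite
kernels, for `SL_k(ℤ)`, `k ≥ 3`, or a Kazhdan group, and a sofic group: if `G₁` is flexibly stable,
then each sofic group `G₂` with a homomorphism with finite kernel from a subgroup of finite index of
`G₂` onto a subgroup of finite index of `G₁` is commensurable with `G₁` and flexibly stable.
-/

set_option autoImplicit false

namespace Pool.Agent.Results.MP_d45256_al.Commensurable

open Pool.Agent.H51K Pool.Agent.FS84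

/-- for every group `G₂` with a homomorphism `p` with finite kernel from a subgroup `K₂` of finite
index of `G₂` onto a subgroup of finite index of `G₁`, with `G₂` sofic or `p` injective: `G₁` is
flexibly stable if and only if `G₂` is, and if they are, then a subgroup of finite index of `K₂`
meets the kernel of `p` trivially -/
def CommInvariant (G₁ : Type) [Group G₁] : Prop :=
  ∀ (G₂ : Type) [Group G₂] (K₂ : Subgroup G₂) (p : K₂ →* G₁), K₂.FiniteIndex → Finite p.ker →
    p.range.FiniteIndex → Sofic G₂ ∨ Function.Injective p →
      (FlexStable G₁ ↔ FlexStable G₂) ∧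
        (FlexStable G₁ → ∃ K : Subgroup K₂, K.FiniteIndex ∧ K ⊓ p.ker = ⊥)

theorem result :
    (∀ k : ℕ, 3 ≤ k → CommInvariant (Matrix.SpecialLinearGroup (Fin k) ℤ)) ∧
    ∀ (G₁ : Type) [Group G₁] [Countable G₁], IsKazhdan G₁ → CommInvariant G₁ := by
  constructor
  · intro k hk G₂ _ K₂ p h₁ h₂ h₃ h
    have : Countable (Matrix.SpecialLinearGroup (Fin k) ℤ) := by
      unfold Matrix.SpecialLinearGroup Matrix
      infer_instance
    exact flexStable_upToFinite (Pool.Agent.TAU.hasNear k hk) K₂ p h
  · intro G₁ _ _ hT G₂ _ K₂ p h₁ h₂ h₃ h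
    exact flexStable_upToFinite (near_invariant hT) K₂ p h

end Pool.Agent.Results.MP_d45256_al.Commensurable
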