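import Pool.Agent.JAL.All
import Pool.Agent.TAU.Has

/-!
`MP_d45256_al`: in flexible stability of `SL_k(ℤ)`, `k ≥ 3`, the number of the new points cannot be
bounded by a prescribed `s(n) = o(n)`: there are almost-homomorphisms, close to actions on
`n + o(n)` points, whose distance from all actions on at most `n + s(n)` points is at least a
constant, for all large `n`.
-/

set_option autoImplicit false

open Filter Topology

namespace Pool.Agent.Results.MP_d45256_al.Jump

open Pool.Agent.FS84

theorem result (k : ℕ) (hk : 3 ≤ k) :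
    ∃ (F : Finset (Matrix.SpecialLinearGroup (Fin k) ℤ)) (c : ℝ), 0 < c ∧ ∀ s : ℕ → ℕ,
      Tendsto (fun n => (s n : ℝ) / n) atTop (𝓝 0) →
        ∃ f : (n : ℕ) → Matrix.SpecialLinearGroup (Fin k) ℤ → Equiv.Perm (Fin n),
          AlmostHom f ∧ FlexClose f ∧
          ∀ᶠ n : ℕ in atTop, ∀ M : ℕ, 1 ≤ M → M ≤ n + s n →
            ∀ ρ : Matrix.SpecialLinearGroup (Fin k) ℤ →* Equiv.Perm (Fin M),
              ∃ a ∈ F, c ≤ flex (f n a) (ρ a) :=
  Pool.Agent.JAL.jump_all (Pool.Agent.TAU.hasNear k hk) (Pool.Agent.JAL.dense k (by omega))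

end Pool.Agent.Results.MP_d45256_al.Jump
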