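import Pool.Agent.FS84.NonInj84

/-!
`MP_d45256_al`: an explicit amalgamated product `P` of two copies of `SL_k(ℤ)`, `k ≥ 3`, over a
subgroup of finite index and its homomorphism `r` to `SL_k(ℤ[1/p])`: `r` is not injective and all
homomorphisms from `P` to finite groups factor through `r`. If `SL_k(ℤ)` is flexibly permutation
stable, then so are `P` and `SL_k(ℤ[1/p])`, all homomorphisms from `P` to sofic groups factor
through `r`, and `P` is not sofic.
-/

set_option autoImplicit false

namespace Pool.Agent.Results.MP_d45256_al.NonSoficAmalgam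

open Pool.Agent.FS84

/-- `SL_k(ℤ[1/p])`, `ℤ[1/p]` the subring of `ℚ` generated by `1/p` -/
abbrev SLp (k p : ℕ) : Type :=
  Matrix.SpecialLinearGroup (Fin k) (Subring.closure {(p : ℚ)⁻¹} : Subring ℚ)

/-- the inclusion of `SL_k(ℤ[1/p])` in `SL_k(ℚ)` -/
def inQ (k p : ℕ) : SLp k p →* Matrix.SpecialLinearGroup (Fin k) ℚ :=
  Matrix.SpecialLinearGroup.map (Subring.closure {(p : ℚ)⁻¹} : Subring ℚ).subtype

/-- `r` is `c ↦ c` on the first copy of `SL_k(ℤ)` and `d ↦ g⁻¹ d g` on the second, `k = n + 3` -/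
def IsProj (n p : ℕ) [NeZero p] (r : Amalgam n p →* SLp (n + 3) p) : Prop :=
  ∀ c : Matrix.SpecialLinearGroup (Fin (n + 3)) ℤ,
    inQ (n + 3) p (r (amalgIncl n p false c)) = slQ (n + 3) c ∧
    inQ (n + 3) p (r (amalgIncl n p true c)) = (gEl n p)⁻¹ * slQ (n + 3) c * gEl n p

/-- every homomorphism from `P` to a finite group factors through `r` -/
def FiniteFactor {P Γ : Type} [Group P] [Group Γ] (r : P →* Γ) : Prop :=
  ∀ (H : Type) [Group H] [Finite H] (f : P →* H), ∃ f' : Γ →* H, ∀ x, f x = f' (r x)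

/-- every homomorphism from `P` to a sofic group factors through `r` -/
def SoficFactor {P Γ : Type} [Group P] [Group Γ] (r : P →* Γ) : Prop :=
  ∀ (H : Type) [Group H], Sofic H → ∀ f : P →* H, ∃ f' : Γ →* H, ∀ x, f x = f' (r x)

theorem result : ∀ (n p : ℕ) [NeZero p], 2 ≤ p →
    ∃ r : Amalgam n p →* SLp (n + 3) p, IsProj n p r ∧
      (¬ Function.Injective r ∧ FiniteFactor r) ∧
      (FlexStable (Matrix.SpecialLinearGroup (Fin (n + 3)) ℤ) →
        (FlexStable (Amalgam n p) ∧ FlexStable (SLp (n + 3) p)) ∧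
        SoficFactor r ∧ ¬ Sofic (Amalgam n p)) := by
  intro n p _ hp
  refine ⟨toI n p, ?_, ⟨toI_not_injective n p hp, ?_⟩, fun hst =>
    ⟨⟨amalgam_flexStable n p hp hst, slI_flexStable n p hp hst⟩, ?_,
      amalgam_not_sofic' n p hp hst⟩⟩
  · intro c
    constructor
    · have h1 := slIQ_toI n p (amalgIncl n p false c)
      rw [Pool.Agent.K89.toQ_false] at h1
      exact h1
    · have h1 := slIQ_toI n p (amalgIncl n p true c)
      rw [Pool.Agent.K89.toQ_true] at h1
      exact h1
  · intro H _ _ f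
    obtain ⟨f', h⟩ := finite_factor n p H f
    exact ⟨f', fun x => by rw [h]; rfl⟩
  · intro H _ hH f
    obtain ⟨f', h⟩ := sofic_factor n p hp hst H hH f
    exact ⟨f', fun x => by rw [h]; rfl⟩

end Pool.Agent.Results.MP_d45256_al.NonSoficAmalgam
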