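import Pool.Agent.IRS.HalfFinal2

/-!
`MP_d45256_al`: `SL_k(ℤ)`, `k ≥ 3`, is flexibly permutation stable if and only if every sofic
approximation of `PSL_k(ℤ)` is covered, with a bounded density, by a part `D` of a finite
`SL_k(ℤ)`-set with at most `c |D|` errors for some `c < 1/2`; and then every almost-homomorphism of
`SL_k(ℤ)` is covered exactly, with every precision, by unions of copies of one of the finite groups
`SL_k(ℤ/M)`.
-/

set_option autoImplicit false

namespace Pool.Agent.Results.MP_d45256_al.OnePercent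

open Pool.Agent.FS84 Pool.Agent.IRS

theorem result : ∀ k : ℕ, 3 ≤ k →
    [FlexStable (Matrix.SpecialLinearGroup (Fin k) ℤ),
      ∀ g : (n : ℕ) → Matrix.ProjectiveSpecialLinearGroup (Fin k) ℤ → Equiv.Perm (Fin n),
        SoficApprox g → ∃ (K : ℕ) (c : ℝ), c < 1 / 2 ∧ CoveredBy (liftSL g) K c,
      ∀ f : (n : ℕ) → Matrix.SpecialLinearGroup (Fin k) ℤ → Equiv.Perm (Fin n),
        AlmostHom f → CongExact f].TFAE :=
  flexStable_half_tfae2

end Pool.Agent.Results.MP_d45256_al.OnePercent
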